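import Pool.Agent.H725R3.KRW.Main
import Pool.Agent.H725R3.KRW.Adm

set_option autoImplicit false

/-!
# The inverse correlation length need not be analytic between saturation and `λ_exp`

We disprove Q1 with the killed random walk (KRW) in dimension `d = 2`.

Definitions (in `Pool/Agent/H725R3/KRW/Walk.lean` and `Pool/Agent/H725R3/KRW/Defs.lean`):
* `Site d = Fin d → ℤ`, `Vec d = Fin d → ℝ`, `toVec` the inclusion, `latt v` the lattice point `z`
  with `v ∈ z + [-1/2,1/2)^d`;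
* `IsSymNorm N`: `N` is a norm on `R^d`, invariant under permutations of coordinates and
  reflections;
* `kern N ψ x = ψ(x) e^{-N(x)}` for `x ≠ 0` and `0` for `x = 0`;
* `IsPrefactor N ψ`: `ψ ≥ 0`, `ψ(y) > 0` for `y ≠ 0`, `log ψ(y) / N(y) → 0` as `|y| → ∞`,
  invariance under the lattice symmetries, and `∑_x J_{0x} = 1` for `J = kern N ψ`;
* `G J λ x y`: the sum over `n` and over all walks `(γ_0,…,γ_n)` from `x` to `y` of
  `∏ λ J_{γ_{i-1} γ_i}` (a number in `[0,∞]`);
* `nu J s λ = ν_s(λ) = - lim_n (1/n) log G_λ(0, ns)`;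
* `lamC J = λ_c`, `lamExp J = λ_exp`, `lamSat N J s = λ_sat(s)` as in the problem, in `[-∞,∞]`.

The example: the `ℓ¹` norm and `ψ(x) = c (1+|x_0|)^{-4} (1+|x_1|)^{-4}`.  Put
`F(u) = ∑_k (1+|k|)^{-4} e^{-|k|} e^{uk}`. Then `ν_s(λ)` is the maximum of `h·s` over the
`h ∈ [-1,1]^2` with `λ c (F(h_0) F(h_1) - 1) ≤ 1`. For `0 < s_1 < s_0` and `λ` slightly above
`λ_sat(s)` the maximiser is the point `(1,y)` of the edge of the square with
`λ c (F(1) F(y) - 1) = 1`, so that `ν_s(λ) = s_0 + s_1 y`; for larger `λ` the maximiser is in the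
interior of the square and `ν_s(λ) > s_0 + s_1 y`. By the identity theorem `ν_s` cannot be analytic
on the whole interval.
-/

open Filter Pool.Agent.H725R3.KRW
open scoped ENNReal Topology

/-- **Disproof of Q1.** There are a norm on `R^2` and a prefactor `ψ` satisfying all the
conditions of the problem such that for the killed random walk: `λ_c = 1`; `G_λ(0,x)` is finite and
positive and the limit defining `ν_s(λ)` exists for all `0 < λ < 1` and all `s`; and for every
`s ∈ S^1` with `0 < s_1 < s_0` there is `λ ∈ (λ_sat(s), λ_exp)` at which `ν_s` is not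
real-analytic. -/
theorem Pool.Agent.Results.MP_07406a_pr.KRWNotAnalytic.result :
    ∃ (N : Vec 2 → ℝ) (ψ : Site 2 → ℝ), IsSymNorm N ∧ IsPrefactor N ψ ∧
      lamC (kern N ψ) = 1 ∧
      (∀ (l : ℝ) (x : Site 2), 0 < l → l < 1 →
        0 < G (kern N ψ) l 0 x ∧ G (kern N ψ) l 0 x < ∞) ∧
      (∀ (l : ℝ) (s : Vec 2), 0 < l → l < 1 →
        Tendsto (fun n : ℕ => -(1 / (n : ℝ)) *
          Real.log (G (kern N ψ) l 0 (latt ((n : ℝ) • s))).toReal)
          atTop (𝓝 (nu (kern N ψ) s l))) ∧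
      ∀ s : Vec 2, s 0 ^ 2 + s 1 ^ 2 = 1 → 0 < s 1 → s 1 < s 0 →
        ∃ l : ℝ, lamSat N (kern N ψ) s < l ∧ l < lamExp (kern N ψ) ∧
          ¬ AnalyticAt ℝ (nu (kern N ψ) s) l := by
  refine ⟨l1, psi, l1_sym, psi_prefactor, lamC_eq, ?_, ?_, ?_⟩
  · intro l x h0 h1
    exact ⟨(kHyp h0 h1).G_pos x, lt_top_iff_ne_top.2 ((kHyp h0 h1).G_ne_top x)⟩
  · intro l s h0 h1
    rw [nu_eq h0 h1]
    exact (kHyp h0 h1).tendsto s
  · intro s _ h1 h2
    exact main h1 h2
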